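import Mathlib
import Pool.Agent.Y503.RB.Def3

/-!
# Project RB, job RB3-TUBE: the compactness argument
-/

set_option autoImplicit false

namespace Pool.Agent.Y170.RB

open scoped ContDiff RealInnerProductSpace ENNReal Topology
open MeasureTheory Set Metric Filter
open Pool.Agent.Y503.RB

theorem lim_quot {a r b : ℕ → ℝ} {a0 r0 : ℝ} (ha : Tendsto a atTop (𝓝 a0))
    (hr : Tendsto r atTop (𝓝 r0)) (h0 : a0 ≠ 0) (h : ∀ n, b n * a n = r n) :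
    Tendsto b atTop (𝓝 (r0 / a0)) := by
  refine (hr.div ha h0).congr' ?_
  filter_upwards [ha.eventually_ne h0] with n hn
  rw [Pi.div_apply, ← h n, mul_div_assoc, div_self hn, mul_one]

theorem TUBE : St_TUBE := by
  intro f σ z₀ hf hσ hpos hlim
  by_contra hcon
  push Not at hcon
  have hseq : ∀ n : ℕ, ∃ (δ : ℝ) (z : ℂ) (ξ : E4) (β : ℝ), δ ∈ Ioo (0 : ℝ) (1 / ((n : ℝ) + 1)) ∧
      z ∈ ball z₀ (1 / ((n : ℝ) + 1)) ∧ ‖ξ‖ = 1 ∧ 0 < β ∧ Bad f σ δ β ξ z := by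
    intro n
    obtain ⟨δ, hδ, z, hz, ξ, hξ, β, hβ, hB⟩ := hcon (1 / ((n : ℝ) + 1)) (by positivity)
    exact ⟨δ, z, ξ, β, hδ, hz, hξ, hβ, hB⟩
  choose δ z ξ β hδ hz hξ hβ hB using hseq
  have hε : Tendsto (fun n : ℕ => 1 / ((n : ℝ) + 1)) atTop (𝓝 0) :=
    tendsto_one_div_add_atTop_nhds_zero_nat
  have hδ0 : Tendsto δ atTop (𝓝 0) :=
    squeeze_zero (fun n => (hδ n).1.le) (fun n => (hδ n).2.le) hε
  have hz0 : Tendsto z atTop (𝓝 z₀) := by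
    rw [tendsto_iff_dist_tendsto_zero]
    exact squeeze_zero (fun n => dist_nonneg) (fun n => (mem_ball.1 (hz n)).le) hε
  obtain ⟨x, hx, φ, hφ, hX⟩ := (isCompact_sphere (0 : E4) 1).tendsto_subseq
    (x := ξ) (fun n => by rw [mem_sphere_zero_iff_norm]; exact hξ n)
  have hx1 : ‖x‖ = 1 := mem_sphere_zero_iff_norm.1 hx
  have hD : Tendsto (fun n => δ (φ n)) atTop (𝓝 0) := hδ0.comp hφ.tendsto_atTop
  have hZ : Tendsto (fun n => z (φ n)) atTop (𝓝 z₀) := hz0.comp hφ.tendsto_atTop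
  -- continuity
  have f1 : ContDiffAt ℝ ∞ (fderiv ℝ f) z₀ := hf.fderiv_right (by simp)
  have f2 : ContDiffAt ℝ ∞ (fderiv ℝ (fderiv ℝ f)) z₀ := f1.fderiv_right (by simp)
  have s1 : ContDiffAt ℝ ∞ (fderiv ℝ σ) z₀ := hσ.fderiv_right (by simp)
  have hF : Tendsto (fun n => f (z (φ n))) atTop (𝓝 (f z₀)) := hf.continuousAt.tendsto.comp hZ
  have hF1 : ∀ v : ℂ, Tendsto (fun n => fderiv ℝ f (z (φ n)) v) atTop (𝓝 (fderiv ℝ f z₀ v)) := by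
    intro v
    have h : ContinuousAt (fun w => fderiv ℝ f w v) z₀ :=
      f1.continuousAt.clm_apply continuousAt_const
    exact h.tendsto.comp hZ
  have hF2 : ∀ v : ℂ, Tendsto (fun n => fderiv ℝ (fderiv ℝ f) (z (φ n)) v v) atTop
      (𝓝 (fderiv ℝ (fderiv ℝ f) z₀ v v)) := by
    intro v
    have h : ContinuousAt (fun w => fderiv ℝ (fderiv ℝ f) w v v) z₀ :=
      (f2.continuousAt.clm_apply continuousAt_const).clm_apply continuousAt_const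
    exact h.tendsto.comp hZ
  have hS : Tendsto (fun n => ⟪σ (z (φ n)), ξ (φ n)⟫) atTop (𝓝 ⟪σ z₀, x⟫) :=
    (hσ.continuousAt.tendsto.comp hZ).inner hX
  have hS1 : ∀ v : ℂ, Tendsto (fun n => ⟪d1 σ v (z (φ n)), ξ (φ n)⟫) atTop
      (𝓝 ⟪d1 σ v z₀, x⟫) := by
    intro v
    have h : ContinuousAt (fun w => d1 σ v w) z₀ :=
      s1.continuousAt.clm_apply continuousAt_const
    exact (h.tendsto.comp hZ).inner hX
  have hS2 : ∀ v : ℂ, Tendsto (fun n => ⟪d2 σ v v (z (φ n)), ξ (φ n)⟫) atTop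
      (𝓝 ⟪d2 σ v v z₀, x⟫) := by
    intro v
    have h1 : ContDiffAt ℝ ∞ (fun w => fderiv ℝ σ w v) z₀ := s1.clm_apply contDiffAt_const
    have h2 : ContDiffAt ℝ ∞ (fderiv ℝ (fun w => fderiv ℝ σ w v)) z₀ := h1.fderiv_right (by simp)
    have h : ContinuousAt (fun w => d2 σ v v w) z₀ :=
      h2.continuousAt.clm_apply continuousAt_const
    exact (h.tendsto.comp hZ).inner hX
  -- the limit of `β`
  have hr1 : Tendsto (fun n => (2 - 2 * ⟪σ (z (φ n)), ξ (φ n)⟫) * (1 - δ (φ n) * f (z (φ n))) +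
      δ (φ n) ^ 2 * f (z (φ n)) ^ 2) atTop
      (𝓝 ((2 - 2 * ⟪σ z₀, x⟫) * (1 - 0 * f z₀) + 0 ^ 2 * f z₀ ^ 2)) :=
    ((tendsto_const_nhds.sub (hS.const_mul 2)).mul (tendsto_const_nhds.sub (hD.mul hF))).add
      ((hD.pow 2).mul (hF.pow 2))
  have ha1 : Tendsto (fun n => f (z (φ n)) * (1 - δ (φ n) * f (z (φ n)) / 2)) atTop
      (𝓝 (f z₀ * (1 - 0 * f z₀ / 2))) :=
    hF.mul (tendsto_const_nhds.sub ((hD.mul hF).div_const 2))
  have hr2 : ∀ v : ℂ, Tendsto (fun n => (1 - δ (φ n) * f (z (φ n))) *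
      (-2 * ⟪d1 σ v (z (φ n)), ξ (φ n)⟫) - fderiv ℝ f (z (φ n)) v *
        (δ (φ n) * (2 - 2 * ⟪σ (z (φ n)), ξ (φ n)⟫ - 2 * δ (φ n) * f (z (φ n))))) atTop
      (𝓝 ((1 - 0 * f z₀) * (-2 * ⟪d1 σ v z₀, x⟫) - fderiv ℝ f z₀ v *
        (0 * (2 - 2 * ⟪σ z₀, x⟫ - 2 * 0 * f z₀)))) := fun v =>
    ((tendsto_const_nhds.sub (hD.mul hF)).mul ((hS1 v).const_mul (-2))).sub
      ((hF1 v).mul (hD.mul ((tendsto_const_nhds.sub (hS.const_mul 2)).sub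
        ((hD.const_mul 2).mul hF))))
  have ha2 : ∀ v : ℂ, Tendsto (fun n => fderiv ℝ f (z (φ n)) v * (1 - δ (φ n) * f (z (φ n)))) atTop
      (𝓝 (fderiv ℝ f z₀ v * (1 - 0 * f z₀))) := fun v =>
    (hF1 v).mul (tendsto_const_nhds.sub (hD.mul hF))
  have hq1 : ∀ n, β (φ n) * (f (z (φ n)) * (1 - δ (φ n) * f (z (φ n)) / 2)) =
      (2 - 2 * ⟪σ (z (φ n)), ξ (φ n)⟫) * (1 - δ (φ n) * f (z (φ n))) +
      δ (φ n) ^ 2 * f (z (φ n)) ^ 2 := by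
    intro n
    rw [← mul_assoc]
    exact (hB (φ n)).1
  have hq2 : ∀ v : ℂ, ∀ n, β (φ n) * (fderiv ℝ f (z (φ n)) v * (1 - δ (φ n) * f (z (φ n)))) =
      (1 - δ (φ n) * f (z (φ n))) *
      (-2 * ⟪d1 σ v (z (φ n)), ξ (φ n)⟫) - fderiv ℝ f (z (φ n)) v *
        (δ (φ n) * (2 - 2 * ⟪σ (z (φ n)), ξ (φ n)⟫ - 2 * δ (φ n) * f (z (φ n)))) := by
    intro v n
    have h := (hB (φ n)).2.1 v
    rw [h]
    ring
  obtain ⟨b, hb⟩ : ∃ b : ℝ, Tendsto (fun n => β (φ n)) atTop (𝓝 b) := by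
    rcases hpos with h | ⟨-, h⟩
    · exact ⟨_, lim_quot ha1 hr1 (by
        rw [zero_mul, zero_div, sub_zero, mul_one]
        exact h.ne') hq1⟩
    · obtain ⟨v, hv⟩ : ∃ v, fderiv ℝ f z₀ v ≠ 0 := by
        by_contra hcon2
        push Not at hcon2
        exact h (ContinuousLinearMap.ext hcon2)
      exact ⟨_, lim_quot (ha2 v) (hr2 v) (by
        rw [zero_mul, sub_zero, mul_one]
        exact hv) (hq2 v)⟩
  have hb0 : 0 ≤ b := ge_of_tendsto' hb fun n => (hβ (φ n)).le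
  -- the limits of the equations
  have e1 : 2 - 2 * ⟪σ z₀, x⟫ = b * f z₀ := by
    have h1 := hb.mul ha1
    have h2 := tendsto_nhds_unique (h1.congr hq1) hr1
    linarith
  have e2 : ∀ v : ℂ, -2 * ⟪d1 σ v z₀, x⟫ = b * fderiv ℝ f z₀ v := by
    intro v
    have h1 := hb.mul (ha2 v)
    have h2 := tendsto_nhds_unique (h1.congr (hq2 v)) (hr2 v)
    linarith
  obtain ⟨v, hv⟩ := hlim x hx1 b hb0 e1 e2
  have hv0 : v ≠ 0 := by
    rintro rfl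
    have h1 : d2 σ 0 0 z₀ = 0 := by
      unfold d2
      rw [map_zero]
    rw [h1, map_zero, mul_zero, inner_zero_left, mul_zero] at hv
    exact lt_irrefl _ hv
  have h3 : Tendsto (fun n => (1 - δ (φ n) * f (z (φ n))) *
      (-2 * ⟪d2 σ v v (z (φ n)), ξ (φ n)⟫)) atTop
      (𝓝 ((1 - 0 * f z₀) * (-2 * ⟪d2 σ v v z₀, x⟫))) :=
    (tendsto_const_nhds.sub (hD.mul hF)).mul ((hS2 v).const_mul (-2))
  have h4 : Tendsto (fun n => fderiv ℝ (fderiv ℝ f) (z (φ n)) v v *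
      (β (φ n) * (1 - δ (φ n) * f (z (φ n))) +
        δ (φ n) * (2 - 2 * ⟪σ (z (φ n)), ξ (φ n)⟫ - 2 * δ (φ n) * f (z (φ n)))) +
      2 * δ (φ n) * fderiv ℝ f (z (φ n)) v * (-2 * ⟪d1 σ v (z (φ n)), ξ (φ n)⟫) -
      δ (φ n) * (β (φ n) + 2 * δ (φ n)) * (fderiv ℝ f (z (φ n)) v) ^ 2) atTop
      (𝓝 (fderiv ℝ (fderiv ℝ f) z₀ v v * (b * (1 - 0 * f z₀) +
        0 * (2 - 2 * ⟪σ z₀, x⟫ - 2 * 0 * f z₀)) +
      2 * 0 * fderiv ℝ f z₀ v * (-2 * ⟪d1 σ v z₀, x⟫) -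
      0 * (b + 2 * 0) * (fderiv ℝ f z₀ v) ^ 2)) :=
    (((hF2 v).mul ((hb.mul (tendsto_const_nhds.sub (hD.mul hF))).add
      (hD.mul ((tendsto_const_nhds.sub (hS.const_mul 2)).sub ((hD.const_mul 2).mul hF))))).add
      (((hD.const_mul 2).mul (hF1 v)).mul ((hS1 v).const_mul (-2)))).sub
      ((hD.mul (hb.add (hD.const_mul 2))).mul ((hF1 v).pow 2))
  have h5 := le_of_tendsto_of_tendsto' h3 h4 fun n => ((hB (φ n)).2.2 v hv0).le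
  have h6 : (1 - 0 * f z₀) * (-2 * ⟪d2 σ v v z₀, x⟫) = -2 * ⟪d2 σ v v z₀, x⟫ := by ring
  have h7 : fderiv ℝ (fderiv ℝ f) z₀ v v * (b * (1 - 0 * f z₀) +
        0 * (2 - 2 * ⟪σ z₀, x⟫ - 2 * 0 * f z₀)) +
      2 * 0 * fderiv ℝ f z₀ v * (-2 * ⟪d1 σ v z₀, x⟫) -
      0 * (b + 2 * 0) * (fderiv ℝ f z₀ v) ^ 2 = b * fderiv ℝ (fderiv ℝ f) z₀ v v := by ring
  rw [h6, h7] at h5
  exact absurd hv (not_lt.2 h5)

end Pool.Agent.Y170.RB
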